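import Mathlib
import Pool.Agent.Helper69_Lech.Concl

/-!
# Simple elliptic hypersurface singularities are semistable

For each of the three families of simple elliptic hypersurface singularities and each admissible
parameter, `lm(R_f[[T]]) = 1`.
-/

namespace Pool.Agent.Results.MP_b8f3cd_ag.Semistable

open Filter Topology
open Pool.Agent.Helper69_Lech (dimNat colength samuelSeq mult lechMumford)
open MvPowerSeries (X C)

/-- `R_f = ℂ[[x,y,z]]/(f)`. -/
abbrev Rf (f : MvPowerSeries (Fin 3) ℂ) : Type := MvPowerSeries (Fin 3) ℂ ⧸ Ideal.span {f}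

/-- `X_{1,0}`: `x² + y⁴ + z⁴ + λxyz`. -/
noncomputable def fX (l : ℂ) : MvPowerSeries (Fin 3) ℂ :=
  X 0 ^ 2 + X 1 ^ 4 + X 2 ^ 4 + C l * X 0 * X 1 * X 2

/-- `J_{2,0}`: `x² + y³ + z⁶ + λxyz`. -/
noncomputable def fJ (l : ℂ) : MvPowerSeries (Fin 3) ℂ :=
  X 0 ^ 2 + X 1 ^ 3 + X 2 ^ 6 + C l * X 0 * X 1 * X 2

/-- `T_{3,3,3}`: `x³ + y³ + z³ + λxyz`. -/
noncomputable def fT (l : ℂ) : MvPowerSeries (Fin 3) ℂ :=
  X 0 ^ 3 + X 1 ^ 3 + X 2 ^ 3 + C l * X 0 * X 1 * X 2

/-- `R_f` is a Noetherian local ring, `R_f[[T]]` has dimension `3`, for every ideal `I` of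
`R_f[[T]]` with radical the maximal ideal the multiplicity `e(I)` is the limit of
`3! ℓ(R_f[[T]]/Iⁿ)/n³`, and the Lech-Mumford constant of `R_f[[T]]` is `1`. -/
def IsSemistable (f : MvPowerSeries (Fin 3) ℂ) : Prop :=
  ∃ _ : IsLocalRing (Rf f), IsNoetherianRing (Rf f) ∧
    ringKrullDim (PowerSeries (Rf f)) = 3 ∧
    (∀ I : Ideal (PowerSeries (Rf f)),
      I.radical = IsLocalRing.maximalIdeal (PowerSeries (Rf f)) →
      Tendsto (samuelSeq I) atTop (𝓝 (mult I))) ∧
    lechMumford (PowerSeries (Rf f)) = 1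

/-- All simple elliptic hypersurface singularities are semistable. -/
theorem result :
    (∀ l : ℂ, l ^ 4 ≠ 64 → IsSemistable (fX l)) ∧
    (∀ l : ℂ, l ^ 6 ≠ 432 → IsSemistable (fJ l)) ∧
    (∀ l : ℂ, l ^ 3 ≠ -27 → IsSemistable (fT l)) := by
  refine ⟨fun l hl => ?_, fun l hl => ?_, fun l hl => ?_⟩
  · have h := Pool.Agent.Helper69_Lech.semistable_one l hl
    have e : (Pool.Agent.Helper69_Lech.poly1 l : MvPowerSeries (Fin 3) ℂ) = fX l := by
      simp [Pool.Agent.Helper69_Lech.poly1, fX]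
    rw [e] at h
    exact h
  · have h := Pool.Agent.Helper69_Lech.semistable_two l hl
    have e : (Pool.Agent.Helper69_Lech.poly2 l : MvPowerSeries (Fin 3) ℂ) = fJ l := by
      simp [Pool.Agent.Helper69_Lech.poly2, fJ]
    rw [e] at h
    exact h
  · have h := Pool.Agent.Helper69_Lech.semistable_three l hl
    have e : (Pool.Agent.Helper69_Lech.poly3 l : MvPowerSeries (Fin 3) ℂ) = fT l := by
      simp [Pool.Agent.Helper69_Lech.poly3, fT]
    rw [e] at h
    exact h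

end Pool.Agent.Results.MP_b8f3cd_ag.Semistable
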